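import Pool.Agent.PFS.Final

/-!
# MP_c63e80_an, Q2: product flows of directional flows need not be spectrally singular

All definitions are in `Pool/Agent/PFS/Defs.lean`: `TranslationSurface`, `IsOrbit`, `flow`,
`prodFlow`, `IsArea`, `IsSpectralMeasure`, `SpectrallySingularModConst`.
-/

open MeasureTheory PFS

/-- There are a translation surface `(X, ω)` with normalised area measure `μ` and a measurable set `A`
of pairs of directions, of positive Lebesgue measure, such that for every `(θ, φ) ∈ A` the product flow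
`F_θ × F_φ` is not spectrally singular modulo constants: there is `f ∈ L²_0(μ × μ)` whose spectral
measure is nonzero and absolutely continuous with respect to Lebesgue measure. -/
theorem Pool.Agent.Results.MP_c63e80_an.ProductNotSingular.result :
    ∃ (X : Type) (_ : TopologicalSpace X) (_ : CompactSpace X) (_ : T2Space X)
      (_ : ConnectedSpace X) (_ : MeasurableSpace X) (_ : BorelSpace X) (S : TranslationSurface X)
      (μ : Measure X), S.IsArea μ ∧ ∃ A : Set (ℝ × ℝ),
        A ⊆ Set.Ico 0 (2 * Real.pi) ×ˢ Set.Ico 0 (2 * Real.pi) ∧ MeasurableSet A ∧ 0 < volume A ∧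
        ∀ z ∈ A, (∃ f : X × X → ℂ, MemLp f 2 (μ.prod μ) ∧ ∫ w, f w ∂(μ.prod μ) = 0 ∧
            ∃ σ : Measure ℝ, IsSpectralMeasure (μ.prod μ) (S.prodFlow z.1 z.2) f σ ∧ σ ≠ 0 ∧
              σ ≪ volume) ∧
          ¬ SpectrallySingularModConst (μ.prod μ) (S.prodFlow z.1 z.2) := by
  obtain ⟨X, i1, i2, i3, i4, i5, i6, S, μ, hμ, A, h1, h2, h3, h4⟩ := PFS.main
  refine ⟨X, i1, i2, i3, i4, i5, i6, S, μ, hμ, A, h1, h2, h3, fun z hz => ⟨h4 z hz, ?_⟩⟩
  obtain ⟨f, hf, hf0, σ, hσ, hσ0, hσac⟩ := h4 z hz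
  intro hsing
  have hperp := hsing f hf hf0 σ hσ
  apply hσ0
  exact Measure.eq_zero_of_absolutelyContinuous_of_mutuallySingular hσac hperp
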